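import Mathlib
import Pool.Agent.Lib.MP_db9acb_an.Growth

set_option autoImplicit false

namespace Pool.Agent.Results.MP_db9acb_an.UnboundedSolutions

open Pool.Agent.Lib.MP_db9acb_an

/-- The orbit `(u n, u (n+1), q n)` used in the proof. -/
noncomputable def st (C k ε : ℝ) : ℕ → ℝ × ℝ × ℝ
  | 0 => (1, ε, 1)
  | n + 1 =>
    let s := st C k ε n
    (s.2.1, (k + C * s.2.1) / (s.2.2 + C * s.2.1) * s.2.1 / s.1,
      (k + C * s.2.1) / (s.2.2 + C * s.2.1))

theorem st_inv (C k ε : ℝ) (hC : 0 < C) (hk0 : 0 < k) (hk1 : k < 1) (hε : 0 < ε) (n : ℕ) :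
    0 < (st C k ε n).1 ∧ 0 < (st C k ε n).2.1 ∧ k ≤ (st C k ε n).2.2 ∧ (st C k ε n).2.2 ≤ 1 := by
  induction n with
  | zero => exact ⟨one_pos, hε, hk1.le, le_refl _⟩
  | succ n ih =>
    obtain ⟨h1, h2, h3, h4⟩ := ih
    simp only [st]
    set s := st C k ε n
    have hq : 0 < s.2.2 := lt_of_lt_of_le hk0 h3
    have hCv : 0 < C * s.2.1 := mul_pos hC h2
    have hden : 0 < s.2.2 + C * s.2.1 := by positivity
    refine ⟨h2, by positivity, ?_, ?_⟩
    · rw [le_div_iff₀ hden]
      nlinarith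
    · rw [div_le_one hden]
      linarith

theorem st_orb (C k ε : ℝ) (hC : 0 < C) (hk0 : 0 < k) (hk1 : k < 1) (hε : 0 < ε) :
    Orb C k (fun n => (st C k ε n).1) (fun n => (st C k ε n).2.2) := by
  have hinv := st_inv C k ε hC hk0 hk1 hε
  have hu1 : ∀ n, (st C k ε (n + 1)).1 = (st C k ε n).2.1 := fun n => rfl
  have h2 : ∀ n, (st C k ε (n + 1)).2.2 *
      ((st C k ε n).2.2 + C * (st C k ε (n + 1)).1) = k + C * (st C k ε (n + 1)).1 := by
    intro n
    obtain ⟨i1, i2, i3, i4⟩ := hinv n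
    have hq : 0 < (st C k ε n).2.2 := lt_of_lt_of_le hk0 i3
    have hden : 0 < (st C k ε n).2.2 + C * (st C k ε n).2.1 := by positivity
    rw [hu1]
    show (k + C * (st C k ε n).2.1) / ((st C k ε n).2.2 + C * (st C k ε n).2.1) *
      ((st C k ε n).2.2 + C * (st C k ε n).2.1) = _
    field_simp
  refine ⟨hC, hk0, hk1, fun n => (hinv n).1, fun n => (hinv n).2.2.1, fun n => (hinv n).2.2.2,
    ?_, h2, ?_⟩
  · intro n
    obtain ⟨i1, i2, i3, i4⟩ := hinv n
    show (st C k ε (n + 1 + 1)).1 * (st C k ε n).1 = (st C k ε (n + 1)).2.2 * (st C k ε (n + 1)).1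
    rw [hu1, hu1]
    show (k + C * (st C k ε n).2.1) / ((st C k ε n).2.2 + C * (st C k ε n).2.1) *
      (st C k ε n).2.1 / (st C k ε n).1 * (st C k ε n).1 =
      (k + C * (st C k ε n).2.1) / ((st C k ε n).2.2 + C * (st C k ε n).2.1) * (st C k ε n).2.1
    field_simp
  · intro n
    cases n with
    | zero =>
      show (1 - 1) * (C * 1) ≤ (1 : ℝ)
      norm_num
    | succ n =>
      show (1 - (st C k ε (n + 1)).2.2) * (C * (st C k ε (n + 1)).1) ≤ 1
      have e := h2 n
      obtain ⟨i1, i2, i3, i4⟩ := hinv n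
      obtain ⟨j1, j2, j3, j4⟩ := hinv (n + 1)
      have hprod : (st C k ε (n + 1)).2.2 * (st C k ε n).2.2 ≤ 1 :=
        mul_le_one₀ j4 (by linarith) i4
      nlinarith

/-- **Unbounded solutions exist whenever `α C² < 1`.**  The sequence `x` lists the solution from its
first initial value: `x 0, x 1, x 2` are the initial values `x₋₂, x₋₁, x₀` of the problem. -/
theorem result :
    ∀ α C : ℝ, 0 < α → 0 < C → α * C ^ 2 < 1 →
      ∃ x : ℕ → ℝ, (∀ n, 0 < x n) ∧
        (∀ n, x (n + 3) = (α + x (n + 2)) / (C * x (n + 1) + x n)) ∧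
        ¬ BddAbove (Set.range x) := by
  intro α C hα hC hlt
  set k := α * C ^ 2 with hk
  have hk0 : 0 < k := by positivity
  -- the threshold
  have hK : 0 < K C k := (st_orb C k 1 hC hk0 hlt one_pos).K_pos
  have hκ : 0 < κ C k := (st_orb C k 1 hC hk0 hlt one_pos).κ_pos
  set s : ℝ := (11 * K C k + 1) * (1 + C) / κ C k with hs
  have hspos : 0 < s := by positivity
  set A : ℝ := 6 / k * (1 + s ^ 2) with hA
  have hkA : k * A = 6 * (1 + s ^ 2) := by
    rw [hA]; field_simp
  have hA1 : 6 ≤ k * A := by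
    rw [hkA]; nlinarith [sq_nonneg s]
  have hA2 : 11 * K C k + 1 ≤ κ C k * (Real.sqrt (k * A / 6) / (1 + C)) := by
    have h1 : s ≤ Real.sqrt (k * A / 6) := by
      apply Real.le_sqrt_of_sq_le
      rw [hkA]; linarith
    have h2 : κ C k * (s / (1 + C)) = 11 * K C k + 1 := by
      rw [hs]; field_simp
    rw [← h2]
    apply mul_le_mul_of_nonneg_left _ hκ.le
    exact div_le_div_of_nonneg_right h1 (by positivity)
  have hApos : 0 < A := by positivity
  -- the initial value
  set ε : ℝ := min 1 (k / (A + 3 / k + 1)) with hε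
  have hεpos : 0 < ε := lt_min one_pos (by positivity)
  have hε1 : ε ≤ 1 := min_le_left _ _
  have hε2 : ε * (A + 3 / k + 1) ≤ k := by
    have h1 : ε ≤ k / (A + 3 / k + 1) := min_le_right _ _
    rwa [le_div_iff₀ (by positivity)] at h1
  have h := st_orb C k ε hC hk0 hlt hεpos
  set u : ℕ → ℝ := fun n => (st C k ε n).1 with hu
  set q : ℕ → ℝ := fun n => (st C k ε n).2.2 with hq
  have u0 : u 0 = 1 := rfl
  have u1 : u 1 = ε := rfl
  have hY : A < Y k u q 0 := by
    have p0 := h.P_le 0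
    have p1 := h.P_le 1
    have p2 := h.P_le 2
    have hu2 : u 2 ≤ 1 := by
      have h1 := h.h1 0
      simp only [zero_add] at h1
      rw [u0, u1, mul_one] at h1
      rw [h1]
      exact mul_le_one₀ (h.hqu 1) hεpos.le hε1
    have d0 : u 0 / k ≤ 1 / k := div_le_div_of_nonneg_right u0.le hk0.le
    have d1 : u 1 / k ≤ 1 / k := div_le_div_of_nonneg_right (by rw [u1]; exact hε1) hk0.le
    have d2 : u 2 / k ≤ 1 / k := div_le_div_of_nonneg_right hu2 hk0.le
    have hu4 : A + 3 / k + 1 ≤ u 4 := by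
      have h3 := h.h3 1
      have h4 := h.hqq 2
      rw [show (1 : ℕ) + 3 = 4 from rfl, show (1 : ℕ) + 2 = 3 from rfl,
        show (1 : ℕ) + 1 = 2 from rfl, u1] at h3
      rw [show (2 : ℕ) + 1 = 3 from rfl] at h4
      have h5 : ε * (A + 3 / k + 1) ≤ ε * u 4 := by linarith
      exact le_of_mul_le_mul_left h5 hεpos
    have hZ : u 4 ≤ Z k u q 3 := by
      have p3 := h.hu 3
      have p4 := h.hu 4
      have pq3 := h.hq0 3
      unfold Z
      rw [show (3 : ℕ) + 1 = 4 from rfl]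
      have a1 : 0 < u 3 / u 4 := by positivity
      have a2 : 0 < q 3 / u 4 := by positivity
      have a3 : 0 < k / (q 3 * u 3) := by positivity
      have a4 : 0 < u 4 / u 3 := by positivity
      linarith
    unfold Y
    rw [show (0 : ℕ) + 3 = 3 from rfl, show (0 : ℕ) + 2 = 2 from rfl,
      show (0 : ℕ) + 1 = 1 from rfl]
    have e3 : 3 / k = 1 / k + 1 / k + 1 / k := by ring
    linarith
  have hunb := h.unbounded hA1 hA2 hY
  refine ⟨fun n => u n / C, fun n => div_pos (h.hu n) hC, ?_, ?_⟩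
  · intro n
    have p0 := h.hu n
    have p1 := h.hu (n + 1)
    have p2 := h.hu (n + 2)
    have p3 := h.hu (n + 3)
    have e1 := h.h1 n
    have e2 := h.h1 (n + 1)
    have e3 := h.h2 (n + 1)
    rw [show n + 1 + 2 = n + 3 from rfl, show n + 1 + 1 = n + 2 from rfl] at e2
    rw [show n + 1 + 1 = n + 2 from rfl] at e3
    -- `u (n+3) (u n + C u (n+1)) = k + C u (n+2)`
    have e4 : (u (n + 3) * (u n + C * u (n + 1))) * u (n + 1) =
        (k + C * u (n + 2)) * u (n + 1) := by
      calc (u (n + 3) * (u n + C * u (n + 1))) * u (n + 1)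
          = (u (n + 3) * u (n + 1)) * (u n + C * u (n + 1)) := by ring
        _ = q (n + 2) * (u (n + 2) * u n + C * u (n + 1) * u (n + 2)) := by rw [e2]; ring
        _ = (q (n + 2) * (q (n + 1) + C * u (n + 2))) * u (n + 1) := by rw [e1]; ring
        _ = _ := by rw [e3]
    have e5 := mul_right_cancel₀ p1.ne' e4
    have hden : 0 < C * (u (n + 1) / C) + u n / C := by positivity
    rw [eq_div_iff hden.ne']
    have e6 : u (n + 3) / C * (C * (u (n + 1) / C) + u n / C) =
        u (n + 3) * (u n + C * u (n + 1)) / C ^ 2 := by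
      field_simp
      ring
    rw [e6, e5, hk]
    field_simp
  · rintro ⟨M, hM⟩
    apply hunb
    refine ⟨M * C, ?_⟩
    rintro _ ⟨n, rfl⟩
    have := hM ⟨n, rfl⟩
    simp only at this
    rwa [div_le_iff₀ hC] at this

end Pool.Agent.Results.MP_db9acb_an.UnboundedSolutions
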